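import Pool.Agent.helper70.LE.SpecN

/-!
# Row OMR of project LE
-/

set_option autoImplicit false

namespace Pool.Agent.LE

open Pool.Agent.helper58.DC Pool.Agent.DI Pool.Agent.GR Pool.Agent.OB Pool.Agent.DR Pool.Agent.FI Pool.Agent.FI3 Pool.Agent.FI4

open Classical in
theorem OMR_fs {G : Type} [Fintype G] (S : Set G) (g : G → ℂ) :
    ∑ᶠ x ∈ S, g x = ∑ x : G, if x ∈ S then g x else 0 := by
  rw [finsum_eq_sum_of_fintype]
  exact Finset.sum_congr rfl fun x _ => finsum_eq_if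

open Classical in
theorem OMR_sub {G : Type} [Fintype G] (S : Set G) [Fintype S] (g : G → ℂ) :
    ∑ x : S, g x = ∑ x : G, if x ∈ S then g x else 0 := by
  rw [← Finset.sum_filter]
  exact (Finset.sum_subtype (Finset.univ.filter fun x => x ∈ S) (fun x => by simp) g).symm

theorem OMR (hRK1 : RK1_stmt) (hKKF : KKF_stmt) (hKKR : KKR_stmt) : OMR_stmt := by
  classical
  intro p M hM G _ _ L e a hHI hNY h1
  have hfin : Fintype G := Fintype.ofFinite G
  obtain ⟨k1, k2, -, k4, k5, -, -⟩ := hKKF G L a hNY.nor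
  have hc : (Nat.card L : ℂ) ≠ 0 := by exact_mod_cast Nat.card_pos.ne'
  have hcv : cv e e = e := hHI.idm.idem
  let S : Set G := {x : G | a⁻¹ * x ∈ L ∧ PReg p x}
  -- the terms which are not p-regular vanish
  have hres : ∀ x x'' : G, a⁻¹ * x ∈ L → PReg p x →
      ∑ᶠ x' ∈ {x' : G | a⁻¹ * x' ∈ L}, KK L e x x' * KK L e x' x'' = ∑ x' : S, KK L e x x' * KK L e x' x'' := by
    intro x x'' hx hpx
    rw [OMR_fs]
    refine Eq.trans ?_ (OMR_sub S (fun x' => KK L e x x' * KK L e x' x'')).symm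
    refine Finset.sum_congr rfl fun x' _ => ?_
    by_cases h2 : a⁻¹ * x' ∈ L
    · by_cases h3 : PReg p x'
      · have h4 : x' ∈ S := ⟨h2, h3⟩
        rw [if_pos h4, if_pos (show x' ∈ {x' : G | a⁻¹ * x' ∈ L} from h2)]
      · have h4 : x' ∉ S := fun h => h3 h.2
        rw [if_neg h4, if_pos (show x' ∈ {x' : G | a⁻¹ * x' ∈ L} from h2),
          hKKR p M hM G L e a hHI hNY x x' hx h2 ⟨fun _ => h3, fun _ => hpx⟩, zero_mul]
    · have h4 : x' ∉ S := fun h => h2 h.1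
      rw [if_neg h4, if_neg (show x' ∉ {x' : G | a⁻¹ * x' ∈ L} from h2)]
  have hom : ∀ y : G, y ∈ nz L → om p L e a y = ∑ x : S, KK L e x (y * x * y⁻¹) / Nat.card L := by
    intro y hy
    rw [(k5 p e y hy).1, OMR_fs, ← Finset.sum_div]
    exact congrArg (fun z : ℂ => z / (Nat.card L : ℂ)) (OMR_sub S (fun x => KK L e x (y * x * y⁻¹))).symm
  obtain ⟨F0, hF1, hF2⟩ := hRK1 S (fun x x' => KK L e x x' / Nat.card L)
    (fun x x' => by
      show KK L e x' x / (Nat.card L : ℂ) = (starRingEnd ℂ) (KK L e x x' / (Nat.card L : ℂ))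
      rw [map_div₀, map_natCast, k2 e hHI.cls hHI.her x x'])
    (fun x x'' => by
      show ∑ x' : S, KK L e x x' / (Nat.card L : ℂ) * (KK L e x' x'' / (Nat.card L : ℂ)) = KK L e x x'' / (Nat.card L : ℂ)
      have h2 := k1 e e hHI.idm.sup hHI.cls x x'' x.2.1 x''.2.1
      rw [hres x x'' x.2.1 x.2.2, hcv] at h2
      have h3 : ∑ x' : S, KK L e x x' / (Nat.card L : ℂ) * (KK L e x' x'' / (Nat.card L : ℂ)) =
          (∑ x' : S, KK L e x x' * KK L e x' x'') / ((Nat.card L : ℂ) * (Nat.card L : ℂ)) := by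
        rw [Finset.sum_div]
        refine Finset.sum_congr rfl fun x' _ => ?_
        field_simp
      rw [h3, h2]
      field_simp)
    (by
      show ∑ x : S, KK L e x x / (Nat.card L : ℂ) = 1
      have h2 := hom 1 (Subgroup.one_mem _)
      rw [h1] at h2
      rw [h2]
      refine Finset.sum_congr rfl fun x _ => ?_
      rw [one_mul, inv_one, mul_one])
  let F : G → ℂ := fun x => if h : x ∈ S then F0 ⟨x, h⟩ else 0
  have hFS : ∀ x : S, F x = F0 x := fun x => dif_pos x.2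
  have hKF : ∀ x ∈ S, ∀ x' ∈ S, KK L e x x' = (Nat.card L : ℂ) * (F x * (starRingEnd ℂ) (F x')) := by
    intro x hx x' hx'
    have h2 := hF1 ⟨x, hx⟩ ⟨x', hx'⟩
    rw [← hFS ⟨x, hx⟩, ← hFS ⟨x', hx'⟩] at h2
    rw [← h2]
    field_simp
  have hne : ∃ x ∈ S, F x ≠ 0 := by
    by_contra hcon
    push Not at hcon
    have h2 : ∑ x : S, F0 x * (starRingEnd ℂ) (F0 x) = 0 := by
      refine Finset.sum_eq_zero fun x _ => ?_
      rw [← hFS x, hcon x x.2, zero_mul]
    rw [hF2] at h2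
    exact one_ne_zero h2
  refine ⟨F, fun x x' hx hpx hx' hpx' => hKF x ⟨hx, hpx⟩ x' ⟨hx', hpx'⟩, ?_, ?_⟩
  · obtain ⟨x, hx, hFx⟩ := hne
    exact ⟨x, hx.1, hx.2, hFx⟩
  · intro y hy hay
    obtain ⟨x0, hx0, hFx0⟩ := hne
    have hstab : ∀ x ∈ S, y * x * y⁻¹ ∈ S := by
      intro x hx
      refine ⟨?_, ?_⟩
      · have h2 : a⁻¹ * (y * x * y⁻¹) = (a⁻¹ * (y * a * y⁻¹)) * (y * (a⁻¹ * x) * y⁻¹) := by group
        rw [h2]
        exact L.mul_mem hay ((Subgroup.mem_normalizer_iff.1 hy.nor (a⁻¹ * x)).1 hx.1)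
      · have h2 : orderOf (y * x * y⁻¹) = orderOf x := MulEquiv.orderOf_eq (MulAut.conj y) x
        unfold PReg
        rw [h2]
        exact hx.2
    have hinv : ∀ x ∈ S, ∀ x' ∈ S, F (y * x * y⁻¹) * (starRingEnd ℂ) (F (y * x' * y⁻¹)) = F x * (starRingEnd ℂ) (F x') := by
      intro x hx x' hx'
      have h2 := k4 e y hy.nor x x'
      have h3 : (fun t => e (y * t * y⁻¹)) = e := funext hy.inv
      rw [h3, hKF _ (hstab x hx) _ (hstab x' hx'), hKF x hx x' hx'] at h2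
      exact mul_left_cancel₀ hc h2
    have h00 := hinv x0 hx0 x0 hx0
    have hcx0 : (starRingEnd ℂ) (F x0) ≠ 0 := (map_ne_zero _).2 hFx0
    have hFy0 : F (y * x0 * y⁻¹) ≠ 0 := by
      intro h2
      rw [h2, zero_mul] at h00
      exact mul_ne_zero hFx0 hcx0 h00.symm
    have hcy0 : (starRingEnd ℂ) (F (y * x0 * y⁻¹)) ≠ 0 := (map_ne_zero _).2 hFy0
    set k : ℂ := (starRingEnd ℂ) (F x0) / (starRingEnd ℂ) (F (y * x0 * y⁻¹)) with hk
    have hk1 : ∀ x ∈ S, F (y * x * y⁻¹) = k * F x := by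
      intro x hx
      have h2 := hinv x hx x0 hx0
      rw [hk, div_mul_eq_mul_div, eq_div_iff hcy0, h2, mul_comm]
    have hkk : k * (starRingEnd ℂ) k = 1 := by
      rw [hk, map_div₀, Complex.conj_conj, Complex.conj_conj, div_mul_div_comm, div_eq_one_iff_eq
        (mul_ne_zero hcy0 hFy0), mul_comm, mul_comm _ (F (y * x0 * y⁻¹))]
      exact h00.symm
    have homk : om p L e a y = (starRingEnd ℂ) k := by
      rw [hom y hy.nor]
      have h2 : ∀ x : S, KK L e x (y * x * y⁻¹) / (Nat.card L : ℂ) = (starRingEnd ℂ) k * (F0 x * (starRingEnd ℂ) (F0 x)) := by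
        intro x
        rw [hKF x x.2 _ (hstab x x.2), hk1 x x.2, map_mul, hFS x]
        field_simp
      rw [Finset.sum_congr rfl fun x _ => h2 x, ← Finset.mul_sum, hF2, mul_one]
    rw [homk]
    refine ⟨?_, fun x hx hpx => ?_⟩
    · rw [Complex.conj_conj, mul_comm]
      exact hkk
    · rw [Complex.conj_conj]
      exact hk1 x ⟨hx, hpx⟩

end Pool.Agent.LE
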