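import Pool.Agent.helper12.LE.SpecB

/-!
# Row KHH of project LE
-/

set_option autoImplicit false

namespace Pool.Agent.LE

open Pool.Agent.helper58.DC Pool.Agent.DI Pool.Agent.GR Pool.Agent.OB Pool.Agent.DR Pool.Agent.FI Pool.Agent.FI3 Pool.Agent.FI4 Pool.Agent.FI4C Pool.Agent.FI4B

theorem KHH (hDFE : DFE_stmt) : KHH_stmt := by
  intro p M hS G _ _ D x θ χ hR h hht ψ hψ
  have hp : Fact p.Prime := ⟨hS.pr⟩
  obtain ⟨a, ha⟩ := hR.dfa.pgrp.exists_card_eq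
  obtain ⟨k, ⟨d, hd1, hd2⟩, hka⟩ := hDFE p M hS G D x θ χ hR ψ hψ a ha
  have h1 := hht ψ hψ a ha k ⟨d, hd1, hd2⟩
  have hG : Nat.card (⊤ : Subgroup G) = Nat.card G := Nat.card_congr Subgroup.topEquiv.toEquiv
  rw [hG] at hd2
  have hd0 : d ≠ 0 := by
    rintro rfl
    have h2 := IrrOn_ne hψ.1
    rw [hd1] at h2
    exact h2 (by norm_num)
  have hD : padicValNat p (Nat.card D) = a := by
    rw [ha]
    exact padicValNat.prime_pow a
  refine ⟨d, ((a : ℤ) - k).toNat, hd1, hd0, ?_, ?_⟩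
  · omega
  · rw [hD]
    omega

end Pool.Agent.LE
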