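import Pool.Agent.helper83.LE.SpecB
import Pool.Agent.helper40.FI.LIV

/-!
# Row PK2 of project LE
-/

set_option autoImplicit false

namespace Pool.Agent.LE

open Pool.Agent.helper58.DC Pool.Agent.DI Pool.Agent.GR Pool.Agent.OB Pool.Agent.DR Pool.Agent.FI Pool.Agent.FI3 Pool.Agent.FI4 Pool.Agent.FI4C

theorem PK2_int (q : ℤ) : IsIntegral ℤ (q : ℂ) := by
  have := isIntegral_algebraMap (R := ℤ) (A := ℂ) (x := q)
  simpa using this

theorem PK2 (hLCG : LCG_stmt) (hLCO : LCO_stmt) : PK2_stmt := by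
  classical
  intro p M D _ _ X _ R I β d n δ ε κ hP hS hκ hκu χ F hF hF0
  have hfp : Fact p.Prime := ⟨hP.set.pr⟩
  obtain ⟨k, hk⟩ := hP.pg.exists_card_eq
  obtain ⟨c, E, hcE⟩ := LIV p k δ hP.set.pr hP.odd hS.nd
  obtain ⟨hcst, _, _, _, _, hmul, hstar, hpow, _⟩ := hLCG D
  have hG : LGC (fun u => ((c : ℂ) * β χ u) * κ u ^ E * (starRingEnd ℂ) (F u)) :=
    hmul _ _ (hmul _ _ (hmul _ _ (hcst c) (hP.lg χ)) (hpow κ E hκ)) (hstar F hF)
  obtain ⟨hc1, -, -⟩ := hLCO p M D _ hP.set hP.pg hG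
  obtain ⟨-, hFint, -⟩ := hLCO p M D _ hP.set hP.pg (hstar F hF)
  obtain ⟨m, hm⟩ := hc1 1
  simp only [lv_hone, mul_one] at hm
  have hq0 : ∀ u, ∃ q : ℤ, u ∈ R → ε u * n u * c * ((ε u * n u) ^ 2) ^ E - 1 = (p : ℤ) ^ k * q := by
    intro u
    by_cases hu : u ∈ R
    · obtain ⟨q, hq⟩ := hcE (ε u * n u) (hS.cg u hu)
      exact ⟨q, fun _ => hq⟩
    · exact ⟨0, fun h => absurd h hu⟩
  choose q hq using hq0
  have hI : ¬ InM M ((Nat.card I : ℂ)) := fun h => hP.cop ((InM.natCast hP.set _).1 h)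
  have hI0 : (Nat.card I : ℂ) ≠ 0 := fun h => hI (h ▸ InM.zero hP.set)
  have hIE : (Nat.card I : ℂ) ^ E ≠ 0 := pow_ne_zero E hI0
  have hDk : (Nat.card D : ℂ) = (p : ℂ) ^ k := by
    rw [hk]
    push_cast
    rfl
  set g : D → ℂ := R.indicator (fun u => (ε u : ℂ) * d χ u) with hg
  have key : ∀ u, g u * (starRingEnd ℂ) (F u) =
      ((c : ℂ) * β χ u) * κ u ^ E * (starRingEnd ℂ) (F u) / (Nat.card I : ℂ) ^ E -
        (Nat.card D : ℂ) * ((q u : ℂ) * (g u * (starRingEnd ℂ) (F u))) := by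
    intro u
    by_cases hu : u ∈ R
    · have hgu : g u = (ε u : ℂ) * d χ u := Set.indicator_of_mem hu _
      have hεε : (ε u : ℂ) * (ε u : ℂ) = 1 := by
        rcases hS.pm u with h | h
        · rw [h]
          norm_num
        · rw [h]
          norm_num
      have hqc : ((ε u : ℂ) * (n u : ℂ)) * (c : ℂ) * (((ε u : ℂ) * (n u : ℂ)) ^ 2) ^ E - 1 =
          (Nat.card D : ℂ) * (q u : ℂ) := by
        rw [hDk]
        have h1 := congrArg (fun z : ℤ => (z : ℂ)) (hq u hu)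
        push_cast at h1
        exact h1
      have hsq : ((ε u : ℂ) * (n u : ℂ)) ^ 2 = (n u : ℂ) ^ 2 := by
        linear_combination (n u : ℂ) ^ 2 * hεε
      have hF1 : ((c : ℂ) * β χ u) * κ u ^ E * (starRingEnd ℂ) (F u) / (Nat.card I : ℂ) ^ E =
          (c : ℂ) * β χ u * ((n u : ℂ) ^ 2) ^ E * (starRingEnd ℂ) (F u) := by
        rw [hκu u hu, mul_pow]
        field_simp
      rw [hF1, hgu, hP.nd χ u hu]
      rw [hsq] at hqc
      linear_combination ((starRingEnd ℂ) (F u) * (ε u : ℂ) * d χ u) * (-1 : ℂ) * hqc +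
        ((c : ℂ) * (n u : ℂ) * d χ u * ((n u : ℂ) ^ 2) ^ E * (starRingEnd ℂ) (F u)) * hεε
    · rw [hF0 u hu]
      simp
  refine ⟨(m : ℂ) * ((Nat.card I : ℂ) ^ E)⁻¹ - ∑ u, (q u : ℂ) * (g u * (starRingEnd ℂ) (F u)), ?_, ?_⟩
  · refine IntAt.sub hP.set (IntAt.mul hP.set (IntAt.of_isIntegral hP.set (PK2_int m)) ?_)
      (IntAt.sum hP.set _ fun u _ => IntAt.of_isIntegral hP.set ((PK2_int _).mul (IsIntegral.mul ?_ (hFint u))))
    · rw [← inv_pow]
      exact IntAt.pow hP.set (IntAt.inv hP.set (IntAt.natCast hP.set _) hI) E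
    · by_cases hu : u ∈ R
      · rw [hg, Set.indicator_of_mem hu]
        exact (PK2_int _).mul (hP.int χ u hu)
      · rw [hg, Set.indicator_of_notMem hu]
        exact isIntegral_zero
  · rw [Finset.sum_congr rfl fun u _ => key u, Finset.sum_sub_distrib, ← Finset.sum_div, hm, ← Finset.mul_sum]
    field_simp

end Pool.Agent.LE
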