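import Pool.Agent.helper66.LE.Defs2

/-!
# LE project, module lf:TA: tilting functions on the torus
-/

open Finset Classical MeasureTheory Filter Topology

namespace Pool.Agent.helper66.LE

/-- reflection of the `i`-th coordinate. -/
noncomputable def ta_refl {d L : ℕ} (i : Fin d) (x : Tor d L) : Tor d L :=
  Function.update x i (-(x i))

theorem ta_refl_refl {d L : ℕ} (i : Fin d) (x : Tor d L) : ta_refl i (ta_refl i x) = x := by
  unfold ta_refl
  rw [Function.update_self, neg_neg, Function.update_idem, Function.update_eq_self]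

theorem ta_refl_sub {d L : ℕ} (i : Fin d) (x y : Tor d L) :
    ta_refl i (x - y) = ta_refl i x - ta_refl i y := by
  unfold ta_refl
  funext j
  by_cases hj : j = i
  · subst hj
    simp only [Function.update_self, Pi.sub_apply]
    ring
  · simp only [Function.update_of_ne hj, Pi.sub_apply]

/-- the reflection as an equivalence. -/
noncomputable def ta_equiv {d L : ℕ} (i : Fin d) : Tor d L ≃ Tor d L :=
  ⟨ta_refl i, ta_refl i, ta_refl_refl i, ta_refl_refl i⟩

theorem ta_natAbs_add {L : ℕ} [NeZero L] (a b : ZMod L) :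
    |(((a + b).valMinAbs : ℤ) : ℝ)| ≤ |((a.valMinAbs : ℤ) : ℝ) + ((b.valMinAbs : ℤ) : ℝ)| := by
  have h := ZMod.natAbs_min_of_le_div_two L (a + b).valMinAbs (a.valMinAbs + b.valMinAbs)
    (by simp) (ZMod.natAbs_valMinAbs_le _)
  rw [← Int.cast_add, ← Int.cast_abs, ← Int.cast_abs, Int.cast_le, Int.abs_eq_natAbs,
    Int.abs_eq_natAbs]
  exact_mod_cast h

theorem ta_natAbs_sub {L : ℕ} [NeZero L] (a b : ZMod L) :
    |(((a - b).valMinAbs : ℤ) : ℝ)| ≤ |((a.valMinAbs : ℤ) : ℝ) - ((b.valMinAbs : ℤ) : ℝ)| := by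
  have h := ZMod.natAbs_min_of_le_div_two L (a - b).valMinAbs (a.valMinAbs - b.valMinAbs)
    (by simp) (ZMod.natAbs_valMinAbs_le _)
  rw [← Int.cast_sub, ← Int.cast_abs, ← Int.cast_abs, Int.cast_le, Int.abs_eq_natAbs,
    Int.abs_eq_natAbs]
  exact_mod_cast h

/-- `h(|m + n|) + h(|m - n|) = h(|m| + |n|) + h(|m| - |n|)` for even `h`. -/
theorem ta_even (h : ℝ → ℝ) (heven : ∀ t, h (-t) = h t) (m n : ℝ) :
    h |m + n| + h |m - n| = h (|m| + |n|) + h (|m| - |n|) := by
  have e : ∀ t, h |t| = h t := by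
    intro t
    rcases abs_choice t with h1 | h1 <;> rw [h1]
    exact heven t
  rw [e, e]
  rcases abs_choice m with h1 | h1 <;> rcases abs_choice n with h2 | h2 <;> rw [h1, h2]
  · rw [← sub_eq_add_neg, sub_neg_eq_add, add_comm]
  · rw [show -m + n = -(m - n) by ring, show -m - n = -(m + n) by ring, heven, heven, add_comm]
  · rw [show -m + -n = -(m + n) by ring, show -m - -n = -(m - n) by ring, heven, heven]

section TA
variable {d L : ℕ} [NeZero L]

theorem ta_point (i : Fin d) (h : ℝ → ℝ) (Φ : ℝ → ℝ → ℝ) (hmono : MonotoneOn h (Set.Ici 0))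
    (heven : ∀ t, h (-t) = h t) (hΦ : ∀ s t : ℝ, h (s + t) + h (s - t) ≤ 2 * Φ s t)
    (u z : Tor d L) :
    h (ab i (u + z)) + h (ab i (u + ta_refl i z)) ≤ 2 * Φ (ab i u) (ab i z) := by
  have h1 : h (ab i (u + z)) ≤ h |(((u i).valMinAbs : ℤ) : ℝ) + (((z i).valMinAbs : ℤ) : ℝ)| := by
    apply hmono (Set.mem_Ici.2 (abs_nonneg _)) (Set.mem_Ici.2 (abs_nonneg _))
    exact ta_natAbs_add (u i) (z i)
  have h2 : h (ab i (u + ta_refl i z))
      ≤ h |(((u i).valMinAbs : ℤ) : ℝ) - (((z i).valMinAbs : ℤ) : ℝ)| := by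
    apply hmono (Set.mem_Ici.2 (abs_nonneg _)) (Set.mem_Ici.2 (abs_nonneg _))
    have e : (u + ta_refl i z) i = u i - z i := by
      unfold ta_refl
      simp only [Pi.add_apply, Function.update_self]
      ring
    rw [e]
    exact ta_natAbs_sub (u i) (z i)
  have h3 := ta_even h heven (((u i).valMinAbs : ℤ) : ℝ) (((z i).valMinAbs : ℤ) : ℝ)
  have h4 := hΦ |(((u i).valMinAbs : ℤ) : ℝ)| |(((z i).valMinAbs : ℤ) : ℝ)|
  unfold ab at *
  linarith

/-- For functions of the `i`-th coordinate: reflection symmetrisation. -/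
theorem reflect_sum (i : Fin d) (h : ℝ → ℝ) (Φ : ℝ → ℝ → ℝ) (hmono : MonotoneOn h (Set.Ici 0))
    (heven : ∀ t, h (-t) = h t) (hΦ : ∀ s t : ℝ, h (s + t) + h (s - t) ≤ 2 * Φ s t)
    (f g : Tor d L → ℝ) (hf : ∀ x, 0 ≤ f x) (hg : ∀ x, 0 ≤ g x)
    (hg' : ∀ x, g (Function.update x i (-(x i))) = g x) :
    ∑ x, h (ab i x) * conv f g x ≤ ∑ u, ∑ z, Φ (ab i u) (ab i z) * f u * g z := by
  have h1 : ∑ x, h (ab i x) * conv f g x = ∑ u, ∑ z, h (ab i (u + z)) * f u * g z := by
    unfold conv
    simp only [Finset.mul_sum]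
    rw [Finset.sum_comm]
    refine Finset.sum_congr rfl (fun u _ => ?_)
    rw [← Equiv.sum_comp (Equiv.addLeft u) (fun x => h (ab i x) * (f u * g (x - u)))]
    refine Finset.sum_congr rfl (fun z _ => ?_)
    simp only [Equiv.coe_addLeft, add_sub_cancel_left]
    ring
  have h2 : ∑ u, ∑ z, h (ab i (u + z)) * f u * g z
      = ∑ u, ∑ z, h (ab i (u + ta_refl i z)) * f u * g z := by
    refine Finset.sum_congr rfl (fun u _ => ?_)
    rw [← Equiv.sum_comp (ta_equiv i) (fun z => h (ab i (u + z)) * f u * g z)]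
    refine Finset.sum_congr rfl (fun z _ => ?_)
    have e : g (ta_equiv i z) = g z := hg' z
    rw [e]
    rfl
  have h3 : ∑ u, ∑ z, (h (ab i (u + z)) + h (ab i (u + ta_refl i z))) * f u * g z
      ≤ ∑ u, ∑ z, 2 * Φ (ab i u) (ab i z) * f u * g z := by
    refine Finset.sum_le_sum (fun u _ => Finset.sum_le_sum (fun z _ => ?_))
    have := ta_point i h Φ hmono heven hΦ u z
    exact mul_le_mul_of_nonneg_right (mul_le_mul_of_nonneg_right this (hf u)) (hg z)
  have h4 : ∑ u, ∑ z, (h (ab i (u + z)) + h (ab i (u + ta_refl i z))) * f u * g z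
      = 2 * ∑ x, h (ab i x) * conv f g x := by
    have e : ∑ u, ∑ z, (h (ab i (u + z)) + h (ab i (u + ta_refl i z))) * f u * g z
        = ∑ u, ∑ z, h (ab i (u + z)) * f u * g z
          + ∑ u, ∑ z, h (ab i (u + ta_refl i z)) * f u * g z := by
      rw [← Finset.sum_add_distrib]
      refine Finset.sum_congr rfl (fun u _ => ?_)
      rw [← Finset.sum_add_distrib]
      refine Finset.sum_congr rfl (fun z _ => ?_)
      ring
    rw [e, ← h2, h1]
    ring
  have h5 : ∑ u, ∑ z, 2 * Φ (ab i u) (ab i z) * f u * g z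
      = 2 * ∑ u, ∑ z, Φ (ab i u) (ab i z) * f u * g z := by
    simp only [Finset.mul_sum]
    refine Finset.sum_congr rfl (fun u _ => Finset.sum_congr rfl (fun z _ => ?_))
    ring
  linarith

theorem cosh_add_sub (s t : ℝ) :
    Real.cosh (s + t) + Real.cosh (s - t) = 2 * (Real.cosh s * Real.cosh t) := by
  rw [Real.cosh_add, Real.cosh_sub]
  ring

theorem ta_cosh_mono (l : ℝ) : MonotoneOn (fun t => Real.cosh (l * t)) (Set.Ici 0) := by
  intro s hs t ht hst
  simp only
  rw [Real.cosh_le_cosh, abs_mul, abs_mul, abs_of_nonneg (Set.mem_Ici.1 hs),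
    abs_of_nonneg (Set.mem_Ici.1 ht)]
  exact mul_le_mul_of_nonneg_left hst (abs_nonneg l)

theorem ta_prod_sum {α β : Type*} [Fintype α] [Fintype β] (F f : α → ℝ) (G g : β → ℝ) :
    ∑ u, ∑ z, F u * G z * f u * g z = (∑ u, F u * f u) * ∑ z, G z * g z := by
  rw [Finset.sum_mul_sum]
  refine Finset.sum_congr rfl (fun u _ => Finset.sum_congr rfl (fun z _ => ?_))
  ring

/-- tilted mass of a convolution. -/
theorem tilt_conv (i : Fin d) (l : ℝ) (f g : Tor d L → ℝ) (hf : ∀ x, 0 ≤ f x) (hg : ∀ x, 0 ≤ g x)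
    (hg' : ∀ x, g (Function.update x i (-(x i))) = g x) :
    ∑ x, Real.cosh (l * ab i x) * conv f g x ≤
      (∑ x, Real.cosh (l * ab i x) * f x) * ∑ x, Real.cosh (l * ab i x) * g x := by
  have h1 := reflect_sum i (fun t => Real.cosh (l * t))
    (fun s t => Real.cosh (l * s) * Real.cosh (l * t)) (ta_cosh_mono l)
    (fun t => by simp only [mul_neg, Real.cosh_neg])
    (fun s t => by
      simp only [mul_add, mul_sub]
      rw [cosh_add_sub]) f g hf hg hg'
  refine h1.trans (le_of_eq ?_)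
  exact ta_prod_sum (fun u => Real.cosh (l * ab i u)) f (fun z => Real.cosh (l * ab i z)) g

omit [NeZero L] in
theorem ta_val_one (hL : 3 ≤ L) : (1 : ZMod L).valMinAbs = 1 := by
  have h := ZMod.valMinAbs_natCast_of_le_half (n := L) (a := 1) (by omega)
  simpa using h

omit [NeZero L] in
theorem ta_val_neg_one (hL : 3 ≤ L) : (-1 : ZMod L).valMinAbs = -1 := by
  rw [ZMod.valMinAbs_neg_of_ne_half, ta_val_one hL]
  have : Fact (1 < L) := ⟨by omega⟩
  rw [ZMod.val_one]
  omega

theorem ta_inj (hL : 3 ≤ L) : Function.Injective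
    (fun p : Fin d × Bool => (Pi.single p.1 (if p.2 then (1 : ZMod L) else -1) : Tor d L)) := by
  have : Fact (1 < L) := ⟨by omega⟩
  have hne : (1 : ZMod L) ≠ -1 := by
    intro h
    have := congrArg ZMod.valMinAbs h
    rw [ta_val_one hL, ta_val_neg_one hL] at this
    omega
  rintro ⟨j, b⟩ ⟨k, c⟩ h
  simp only at h
  have hjk : j = k := by
    by_contra hjk
    have := congrFun h j
    rw [Pi.single_eq_same, Pi.single_eq_of_ne hjk] at this
    cases b <;> simp at this
  subst hjk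
  have := congrFun h j
  rw [Pi.single_eq_same, Pi.single_eq_same] at this
  cases b <;> cases c <;> simp_all

theorem ta_sum_image_i {α β : Type*} (i : DecidableEq β) (f : β → ℝ) (s : Finset α) (g : α → β)
    (h : ∀ x ∈ s, ∀ y ∈ s, g x = g y → x = y) :
    ∑ x ∈ @Finset.image α β i g s, f x = ∑ x ∈ s, f (g x) := Finset.sum_image h

/-- sums over the unit vectors. -/
theorem ta_sum_uv (hL : 3 ≤ L) (F : Tor d L → ℝ) :
    ∑ x, F x * J (uv d (ZMod L)) x = ∑ j : Fin d, (F (Pi.single j 1) + F (Pi.single j (-1))) := by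
  have h1 : ∑ x, F x * J (uv d (ZMod L)) x = ∑ x ∈ uv d (ZMod L), F x := by
    unfold J
    simp only [mul_ite, mul_one, mul_zero, Finset.sum_ite_mem, Finset.univ_inter]
  have h2 : ∑ x ∈ uv d (ZMod L), F x
      = ∑ p : Fin d × Bool, F (Pi.single p.1 (if p.2 then (1 : ZMod L) else -1) : Tor d L) := by
    unfold uv
    exact ta_sum_image_i _ F (univ : Finset (Fin d × Bool))
      (fun p => (Pi.single p.1 (if p.2 then (1 : ZMod L) else -1) : Tor d L))
      (fun a _ b _ h => ta_inj hL h)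
  rw [h1, h2, Fintype.sum_prod_type]
  refine Finset.sum_congr rfl (fun j _ => ?_)
  rw [Fintype.sum_bool]
  simp

theorem ta_ab_single (hL : 3 ≤ L) (i j : Fin d) (b : Bool) :
    ab i (Pi.single j (if b then (1 : ZMod L) else -1) : Tor d L) = if i = j then 1 else 0 := by
  unfold ab
  by_cases h : i = j
  · subst h
    rw [Pi.single_eq_same, if_pos rfl]
    cases b
    · simp only [Bool.false_eq_true, if_false]
      rw [ta_val_neg_one hL]; norm_num
    · simp only [if_true]
      rw [ta_val_one hL]; norm_num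
  · rw [Pi.single_eq_of_ne h, if_neg h, ZMod.valMinAbs_zero]
    norm_num

/-- the mass of a function of the `i`-th coordinate under the step distribution. -/
theorem ta_sum_J (hL : 3 ≤ L) (i : Fin d) (h : ℝ → ℝ) :
    ∑ x, h (ab i x) * J (uv d (ZMod L)) x = 2 * (d - 1) * h 0 + 2 * h 1 := by
  rw [ta_sum_uv hL]
  have h1 : ∀ j : Fin d, h (ab i (Pi.single j (1 : ZMod L) : Tor d L))
      + h (ab i (Pi.single j (-1 : ZMod L) : Tor d L)) = 2 * h 0 + if i = j then 2 * h 1 - 2 * h 0 else 0 := by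
    intro j
    have e1 := ta_ab_single hL i j true
    have e2 := ta_ab_single hL i j false
    simp only [if_true] at e1
    simp only [Bool.false_eq_true, if_false] at e2
    rw [e1, e2]
    split_ifs <;> ring
  rw [Finset.sum_congr rfl (fun j _ => h1 j), Finset.sum_add_distrib, Finset.sum_ite_eq,
    Finset.sum_const, Finset.card_univ, Fintype.card_fin]
  simp only [Finset.mem_univ, if_true, nsmul_eq_mul]
  ring

/-- the tilted mass of the step distribution. -/
theorem tilt_J (hL : 3 ≤ L) (i : Fin d) (l : ℝ) :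
    ∑ x, Real.cosh (l * ab i x) * J (uv d (ZMod L)) x = 2 * (d - 1) + 2 * Real.cosh l := by
  have h := ta_sum_J hL i (fun t => Real.cosh (l * t))
  simp only [mul_zero, Real.cosh_zero, mul_one] at h
  exact h

end TA

end Pool.Agent.helper66.LE
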