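import Pool.Agent.helper66.LE.TI
import Pool.Agent.helper66.LE.RU
import Pool.Agent.helper9.LE.TA

/-!
# LE project, module lf:TD: the differential inequality for the tilted susceptibility
-/

open Finset Classical MeasureTheory Filter Topology

namespace Pool.Agent.helper66.LE

section TD
variable {d L : ℕ} [NeZero L]

/-- tilted susceptibility. -/
noncomputable def chl (d L : ℕ) [NeZero L] (i : Fin d) (l q : ℝ) : ℝ :=
  ∑ x, Real.cosh (l * ab i x) * tt d L q x

/-- `a = ∑ (cosh (l|x|) - 1) τ`. -/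
noncomputable def taa (d L : ℕ) [NeZero L] (i : Fin d) (l q : ℝ) : ℝ :=
  ∑ x, (Real.cosh (l * ab i x) - 1) * tt d L q x

/-- `r = ∑ (cosh (l|x|) - 1 - l²|x|²/2) τ`. -/
noncomputable def trr (d L : ℕ) [NeZero L] (i : Fin d) (l q : ℝ) : ℝ :=
  ∑ x, (Real.cosh (l * ab i x) - 1 - (l * ab i x) ^ 2 / 2) * tt d L q x

/-- the derivative of `trr`. -/
noncomputable def dtrr (d L : ℕ) [NeZero L] (i : Fin d) (l q : ℝ) : ℝ :=
  ∑ x, (Real.cosh (l * ab i x) - 1 - (l * ab i x) ^ 2 / 2) * dtau q (uv d (ZMod L)) x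

theorem hasDerivAt_trr (hL : 3 ≤ L) (i : Fin d) (l q : ℝ) :
    HasDerivAt (trr d L i l) (dtrr d L i l q) q := by
  unfold trr dtrr
  refine HasDerivAt.fun_sum (fun x _ => ?_)
  exact (hasDerivAt_tau q (uv_neg d (ZMod L)) (zero_notMem_uv d hL) x).const_mul _

/-- the step distribution is invariant under the reflection. -/
theorem td_J_refl (i : Fin d) (x : Tor d L) :
    J (uv d (ZMod L)) (Function.update x i (-(x i))) = J (uv d (ZMod L)) x := by
  have key : ∀ y : Tor d L, y ∈ uv d (ZMod L) → ta_refl i y ∈ uv d (ZMod L) := by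
    intro y hy
    have h3 : TI_refl (ZMod L) i y ∈ uv d (ZMod L) := by
      rw [mem_uv] at hy ⊢
      obtain ⟨k, hk⟩ := hy
      have e1 : ∀ c : ZMod L, TI_refl (ZMod L) i (Pi.single k c) = Pi.single k c ∨
          TI_refl (ZMod L) i (Pi.single k c) = Pi.single k (-c) := by
        intro c
        rw [TI_refl_apply]
        by_cases hki : k = i
        · right
          subst hki
          funext m
          by_cases hm : m = k
          · subst hm
            rw [Function.update_self, Pi.single_eq_same, Pi.single_eq_same]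
          · rw [Function.update_of_ne hm, Pi.single_eq_of_ne hm, Pi.single_eq_of_ne hm]
        · left
          rw [Pi.single_eq_of_ne (Ne.symm hki), neg_zero]
          funext m
          by_cases hm : m = i
          · subst hm
            rw [Function.update_self, Pi.single_eq_of_ne (Ne.symm hki)]
          · rw [Function.update_of_ne hm]
      refine ⟨k, ?_⟩
      rcases hk with rfl | rfl
      · exact e1 1
      · rcases e1 (-1) with h | h
        · exact Or.inr h
        · rw [neg_neg] at h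
          exact Or.inl h
    exact h3
  unfold J
  have e : (Function.update x i (-(x i)) ∈ uv d (ZMod L)) ↔ x ∈ uv d (ZMod L) := by
    constructor
    · intro h
      have := key _ h
      rwa [show ta_refl i (Function.update x i (-(x i))) = x from ta_refl_refl i x] at this
    · exact key x
  by_cases hx : x ∈ uv d (ZMod L)
  · rw [if_pos hx, if_pos (e.2 hx)]
  · rw [if_neg hx, if_neg (fun h => hx (e.1 h))]

/-- the convolution of two invariant functions is invariant. -/
theorem td_conv_refl (i : Fin d) (f g : Tor d L → ℝ)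
    (hf : ∀ x, f (Function.update x i (-(x i))) = f x)
    (hg : ∀ x, g (Function.update x i (-(x i))) = g x) (x : Tor d L) :
    conv f g (Function.update x i (-(x i))) = conv f g x := by
  unfold conv
  rw [← Equiv.sum_comp (ta_equiv i) (fun y => f y * g (Function.update x i (-(x i)) - y))]
  refine Finset.sum_congr rfl (fun y _ => ?_)
  have e1 : f (ta_equiv i y) = f y := hf y
  have e2 : Function.update x i (-(x i)) - ta_equiv i y = ta_refl i (x - y) :=
    (ta_refl_sub i x y).symm
  rw [e1, e2]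
  have e3 : g (ta_refl i (x - y)) = g (x - y) := hg (x - y)
  rw [e3]

theorem td_conv_nonneg {G : Type*} [AddCommGroup G] [Fintype G] {f g : G → ℝ}
    (hf : ∀ x, 0 ≤ f x) (hg : ∀ x, 0 ≤ g x) (x : G) : 0 ≤ conv f g x :=
  Finset.sum_nonneg (fun y _ => mul_nonneg (hf y) (hg _))

theorem td_sum_conv {G : Type*} [AddCommGroup G] [Fintype G] (f g : G → ℝ) :
    ∑ x, conv f g x = (∑ x, f x) * ∑ x, g x := by
  unfold conv
  rw [Finset.sum_comm, Finset.sum_mul]
  refine Finset.sum_congr rfl (fun u _ => ?_)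
  rw [← Finset.mul_sum, ← Equiv.sum_comp (Equiv.subRight u) g]
  rfl

/-- `h(t) = cosh (l t) - 1 - (l t)²/2`. -/
noncomputable def tdh (l t : ℝ) : ℝ := Real.cosh (l * t) - 1 - (l * t) ^ 2 / 2

/-- `A(t) = cosh (l t) - 1`. -/
noncomputable def tdA (l t : ℝ) : ℝ := Real.cosh (l * t) - 1

theorem tdA_nonneg (l t : ℝ) : 0 ≤ tdA l t := by
  unfold tdA
  linarith [Real.one_le_cosh (l * t)]

theorem td_g_mono : MonotoneOn (fun t : ℝ => Real.cosh t - 1 - t ^ 2 / 2) (Set.Ici 0) := by
  apply monotoneOn_of_deriv_nonneg (convex_Ici 0)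
  · exact (by fun_prop : Continuous (fun t : ℝ => Real.cosh t - 1 - t ^ 2 / 2)).continuousOn
  · intro x _
    exact (by fun_prop : Differentiable ℝ (fun t : ℝ => Real.cosh t - 1 - t ^ 2 / 2)).differentiableAt.differentiableWithinAt
  · intro x hx
    rw [interior_Ici, Set.mem_Ioi] at hx
    have h : HasDerivAt (fun t : ℝ => Real.cosh t - 1 - t ^ 2 / 2) (Real.sinh x - x) x := by
      have h1 := ((Real.hasDerivAt_cosh x).sub_const 1).sub
        (((hasDerivAt_id x).pow 2).div_const 2)
      refine h1.congr_deriv ?_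
      simp
    rw [h.deriv]
    linarith [Real.self_le_sinh_iff.2 hx.le]

theorem tdh_mono (l : ℝ) : MonotoneOn (tdh l) (Set.Ici 0) := by
  intro s hs t ht hst
  have hs' : (0 : ℝ) ≤ s := hs
  have ht' : (0 : ℝ) ≤ t := ht
  have h := td_g_mono (a := |l| * s) (b := |l| * t) (Set.mem_Ici.2 (by positivity))
    (Set.mem_Ici.2 (by positivity)) (mul_le_mul_of_nonneg_left hst (abs_nonneg l))
  simp only at h
  have e : ∀ x : ℝ, 0 ≤ x → Real.cosh (|l| * x) = Real.cosh (l * x) := by
    intro x hx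
    rw [← Real.cosh_abs (l * x), abs_mul, abs_of_nonneg hx]
  rw [e s hs', e t ht', mul_pow, mul_pow, sq_abs] at h
  unfold tdh
  rw [mul_pow, mul_pow]
  exact h

theorem tdh_nonneg (l t : ℝ) : 0 ≤ tdh l t := by
  have h := tdh_mono l (a := 0) (b := |t|) (Set.mem_Ici.2 le_rfl) (Set.mem_Ici.2 (abs_nonneg t))
    (abs_nonneg t)
  have e1 : tdh l 0 = 0 := by unfold tdh; simp
  have e2 : tdh l |t| = tdh l t := by
    unfold tdh
    rw [mul_pow, mul_pow, sq_abs]
    rcases abs_choice t with h1 | h1 <;> rw [h1]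
    rw [mul_neg, Real.cosh_neg]
  rw [e1, e2] at h
  exact h

theorem tdh_even (l t : ℝ) : tdh l (-t) = tdh l t := by
  unfold tdh
  rw [mul_neg, Real.cosh_neg, neg_sq]

theorem tdA_even (l t : ℝ) : tdA l (-t) = tdA l t := by
  unfold tdA
  rw [mul_neg, Real.cosh_neg]

theorem tdA_mono (l : ℝ) : MonotoneOn (tdA l) (Set.Ici 0) := by
  intro s hs t ht hst
  have := ta_cosh_mono l hs ht hst
  unfold tdA
  simp only at this
  linarith

theorem tdh_add (l s t : ℝ) :
    tdh l (s + t) + tdh l (s - t) = 2 * (tdh l s + tdh l t + tdA l s * tdA l t) := by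
  unfold tdh tdA
  have h := cosh_add_sub (l * s) (l * t)
  rw [← mul_add, ← mul_sub] at h
  linear_combination h

theorem tdA_add (l s t : ℝ) :
    tdA l (s + t) + tdA l (s - t) = 2 * (tdA l s + tdA l t + tdA l s * tdA l t) := by
  unfold tdA
  have h := cosh_add_sub (l * s) (l * t)
  rw [← mul_add, ← mul_sub] at h
  linear_combination h

/-- the double sum of `H(s) + H(t) + A(s) A(t)`. -/
theorem td_expand {α β : Type*} [Fintype α] [Fintype β] (H A f : α → ℝ) (H' A' g : β → ℝ) :
    ∑ u, ∑ z, (H u + H' z + A u * A' z) * f u * g z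
      = (∑ u, H u * f u) * (∑ z, g z) + (∑ u, f u) * (∑ z, H' z * g z)
        + (∑ u, A u * f u) * ∑ z, A' z * g z := by
  rw [Finset.sum_mul_sum, Finset.sum_mul_sum, Finset.sum_mul_sum, ← Finset.sum_add_distrib,
    ← Finset.sum_add_distrib]
  refine Finset.sum_congr rfl (fun u _ => ?_)
  rw [← Finset.sum_add_distrib, ← Finset.sum_add_distrib]
  refine Finset.sum_congr rfl (fun z _ => ?_)
  ring

/-- With `A₁ = cosh l - 1` and `h₁ = cosh l - 1 - l²/2`. -/
theorem dtrr_le (hL : 3 ≤ L) (i : Fin d) (l : ℝ) {q : ℝ} (h0 : 0 ≤ q) (h1 : q ≤ 1) :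
    dtrr d L i l q ≤ 4 * d * chi d L q * trr d L i l q + 2 * d * (taa d L i l q) ^ 2 +
      4 * (Real.cosh l - 1) * taa d L i l q * chi d L q + 2 * (Real.cosh l - 1) * (taa d L i l q) ^ 2 +
      2 * (Real.cosh l - 1 - l ^ 2 / 2) * (chi d L q) ^ 2 := by
  set τ : Tor d L → ℝ := tt d L q with hτ
  set j : Tor d L → ℝ := J (uv d (ZMod L)) with hj
  have hτ0 : ∀ x, 0 ≤ τ x := fun x => tau_nonneg h0 h1 _ x
  have hj0 : ∀ x, 0 ≤ j x := by
    intro x
    rw [hj]
    unfold J
    split_ifs <;> norm_num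
  have hτr : ∀ x : Tor d L, τ (Function.update x i (-(x i))) = τ x := fun x => tt_reflect i x
  have hjr : ∀ x : Tor d L, j (Function.update x i (-(x i))) = j x := fun x => td_J_refl i x
  have hc0 : ∀ x, 0 ≤ conv j τ x := td_conv_nonneg hj0 hτ0
  have hcr : ∀ x : Tor d L, conv j τ (Function.update x i (-(x i))) = conv j τ x :=
    td_conv_refl i j τ hjr hτr
  -- masses of the step distribution
  have mJ : ∑ x, j x = 2 * d := by
    have := ta_sum_J hL i (fun _ => (1 : ℝ))
    simp only [one_mul] at this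
    rw [hj, this]
    ring
  have mJA : ∑ x, tdA l (ab i x) * j x = 2 * (Real.cosh l - 1) := by
    have := ta_sum_J hL i (tdA l)
    rw [hj, this]
    unfold tdA
    simp
  have mJh : ∑ x, tdh l (ab i x) * j x = 2 * (Real.cosh l - 1 - l ^ 2 / 2) := by
    have := ta_sum_J hL i (tdh l)
    rw [hj, this]
    unfold tdh
    simp
  have cχ : ∑ x, τ x = chi d L q := rfl
  have cr : ∑ x, tdh l (ab i x) * τ x = trr d L i l q := rfl
  have ca : ∑ x, tdA l (ab i x) * τ x = taa d L i l q := rfl
  -- first step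
  have s1 : dtrr d L i l q ≤ ∑ x, tdh l (ab i x) * conv τ (conv j τ) x := by
    unfold dtrr
    refine Finset.sum_le_sum (fun x _ => ?_)
    exact mul_le_mul_of_nonneg_left (dtau_le h0 h1 (uv_neg d (ZMod L)) x) (tdh_nonneg l _)
  have s2 := reflect_sum i (tdh l) (fun s t => tdh l s + tdh l t + tdA l s * tdA l t) (tdh_mono l)
    (tdh_even l) (fun s t => (tdh_add l s t).le) τ (conv j τ) hτ0 hc0 hcr
  have s2' := td_expand (fun u => tdh l (ab i u)) (fun u => tdA l (ab i u)) τ
    (fun z => tdh l (ab i z)) (fun z => tdA l (ab i z)) (conv j τ)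
  have s3 := reflect_sum i (tdh l) (fun s t => tdh l s + tdh l t + tdA l s * tdA l t) (tdh_mono l)
    (tdh_even l) (fun s t => (tdh_add l s t).le) j τ hj0 hτ0 hτr
  have s3' := td_expand (fun u => tdh l (ab i u)) (fun u => tdA l (ab i u)) j
    (fun z => tdh l (ab i z)) (fun z => tdA l (ab i z)) τ
  have s4 := reflect_sum i (tdA l) (fun s t => tdA l s + tdA l t + tdA l s * tdA l t) (tdA_mono l)
    (tdA_even l) (fun s t => (tdA_add l s t).le) j τ hj0 hτ0 hτr
  have s4' := td_expand (fun u => tdA l (ab i u)) (fun u => tdA l (ab i u)) j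
    (fun z => tdA l (ab i z)) (fun z => tdA l (ab i z)) τ
  have s5 := td_sum_conv j τ
  rw [mJ, cχ] at s5
  rw [s3', mJh, mJ, mJA, cχ, cr, ca] at s3
  rw [s4', mJ, mJA, cχ, ca] at s4
  rw [s2', s5, cχ, cr, ca] at s2
  have hχ0 : 0 ≤ chi d L q := Finset.sum_nonneg (fun x _ => hτ0 x)
  have ha0 : 0 ≤ taa d L i l q := Finset.sum_nonneg (fun x _ => mul_nonneg (tdA_nonneg l _) (hτ0 x))
  have t1 := mul_le_mul_of_nonneg_left s3 hχ0
  have t2 := mul_le_mul_of_nonneg_left s4 ha0
  nlinarith [s1, s2, t1, t2]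

end TD

end Pool.Agent.helper66.LE
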